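import Pool.Agent.H56.G3.TR

/-!
# Theorem (G), MP_c59857_nt, row RM: two near optimal sums are close
-/

set_option autoImplicit false

namespace Pool.Agent.H14.G3

open Finset Pool.Agent.H6.N4D Pool.Agent.H93.EB Pool.Agent.H93.GS Pool.Agent.H56.G3

/-- the midpoint of two sums -/
noncomputable def rmMid (g h : Ex) : Ex where
  k := g.k + h.k
  c := fun i => if i < g.k then g.c i / 2 else h.c (i - g.k) / 2
  a := fun i => if i < g.k then g.a i else h.a (i - g.k)

theorem rm_f (g h : Ex) (m : ℕ) : (rmMid g h).f m = (g.f m + h.f m) / 2 := by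
  unfold Ex.f
  show ∑ i ∈ range (g.k + h.k), (rmMid g h).c i * ee ((rmMid g h).a i * m) = _
  rw [Finset.sum_range_add, add_div, Finset.sum_div, Finset.sum_div]
  congr 1
  · refine Finset.sum_congr rfl fun i hi => ?_
    have h1 : i < g.k := Finset.mem_range.1 hi
    show (if i < g.k then g.c i / 2 else h.c (i - g.k) / 2) *
      ee ((if i < g.k then g.a i else h.a (i - g.k)) * m) = _
    rw [if_pos h1, if_pos h1]
    ring
  · refine Finset.sum_congr rfl fun i hi => ?_
    have h1 : ¬ g.k + i < g.k := by omega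
    show (if g.k + i < g.k then g.c (g.k + i) / 2 else h.c (g.k + i - g.k) / 2) *
      ee ((if g.k + i < g.k then g.a (g.k + i) else h.a (g.k + i - g.k)) * m) = _
    rw [if_neg h1, if_neg h1, Nat.add_sub_cancel_left]
    ring

theorem rm_nm (g h : Ex) : (rmMid g h).nm = (g.nm + h.nm) / 2 := by
  unfold Ex.nm
  show ∑ i ∈ range (g.k + h.k), ‖(rmMid g h).c i‖ = _
  rw [Finset.sum_range_add, add_div, Finset.sum_div, Finset.sum_div]
  congr 1
  · refine Finset.sum_congr rfl fun i hi => ?_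
    have h1 : i < g.k := Finset.mem_range.1 hi
    show ‖(if i < g.k then g.c i / 2 else h.c (i - g.k) / 2)‖ = _
    rw [if_pos h1, norm_div]
    norm_num
  · refine Finset.sum_congr rfl fun i hi => ?_
    have h1 : ¬ g.k + i < g.k := by omega
    show ‖(if g.k + i < g.k then g.c (g.k + i) / 2 else h.c (g.k + i - g.k) / 2)‖ = _
    rw [if_neg h1, Nat.add_sub_cancel_left, norm_div]
    norm_num

theorem rm_point (l : ℝ) (x y : ℂ) : 2 * l * ((x + y) / 2).re - ‖(x + y) / 2‖ ^ 2 =
    (2 * l * x.re - ‖x‖ ^ 2) / 2 + (2 * l * y.re - ‖y‖ ^ 2) / 2 + ‖x - y‖ ^ 2 / 4 := by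
  rw [← Complex.normSq_eq_norm_sq, ← Complex.normSq_eq_norm_sq, ← Complex.normSq_eq_norm_sq,
    ← Complex.normSq_eq_norm_sq]
  simp only [Complex.normSq_apply, Complex.add_re, Complex.add_im, Complex.sub_re,
    Complex.sub_im, Complex.div_ofNat_re, Complex.div_ofNat_im]
  ring

theorem rm_J (th : ℝ) (lam : ℕ → ℝ) (q N n : ℕ) (g h : Ex) : J th lam q N n (rmMid g h) =
    (J th lam q N n g + J th lam q N n h) / 2 + d2 q N n g h / 4 := by
  unfold J d2 ar
  rw [rm_nm]
  have h1 : ∑ m ∈ (Ioc n (n + N)).filter (fun m => q ∣ m),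
      (2 * lam m * ((rmMid g h).f m).re - ‖(rmMid g h).f m‖ ^ 2) =
      (∑ m ∈ (Ioc n (n + N)).filter (fun m => q ∣ m),
        (2 * lam m * (g.f m).re - ‖g.f m‖ ^ 2)) / 2 +
      (∑ m ∈ (Ioc n (n + N)).filter (fun m => q ∣ m),
        (2 * lam m * (h.f m).re - ‖h.f m‖ ^ 2)) / 2 +
      (∑ m ∈ (Ioc n (n + N)).filter (fun m => q ∣ m), ‖g.f m - h.f m‖ ^ 2) / 4 := by
    rw [Finset.sum_div, Finset.sum_div, Finset.sum_div, ← Finset.sum_add_distrib,
      ← Finset.sum_add_distrib]
    refine Finset.sum_congr rfl fun m _ => ?_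
    rw [rm_f, rm_point]
  rw [h1]
  ring

theorem pf_RM (hRB : T_RB) : T_RM := by
  intro th lam q N n g h hth hlam hq hN
  obtain ⟨hbdd, -⟩ := hRB th lam q N n hth hlam hq hN
  have h1 : J th lam q N n (rmMid g h) ≤ En th lam q N n := le_ciSup hbdd (rmMid g h)
  rw [rm_J] at h1
  unfold df
  linarith

end Pool.Agent.H14.G3
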