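import Pool.Agent.H56.G3.TR

/-!
# Theorem (G), MP_c59857_nt, row RS: the functional of a window and the sliding pieces
-/

set_option autoImplicit false

namespace Pool.Agent.H14.G3

open Finset Pool.Agent.H6.N4D Pool.Agent.H93.EB Pool.Agent.H93.GS Pool.Agent.H56.G3

theorem rs_Ioc (a M : ℕ) (F : ℕ → ℝ) :
    ∑ m ∈ Ioc a (a + M), F m = ∑ r ∈ range M, F (a + 1 + r) := by
  have h1 : Ioc a (a + M) = Ico (a + 1) (a + 1 + M) := by
    ext x
    rw [mem_Ioc, mem_Ico]
    omega
  rw [h1, Finset.sum_Ico_eq_sum_range, Nat.add_sub_cancel_left]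

theorem rs_shift (u : ℕ → ℝ) (N : ℕ) (B : ℝ) (hu : ∀ t, |u t| ≤ B) (r : ℕ) :
    |∑ j ∈ range N, u j - ∑ j ∈ range N, u (r + j)| ≤ 2 * r * B := by
  induction r with
  | zero => simp
  | succ r ih =>
    have h1 : ∑ j ∈ range N, u (r + 1 + j) = ∑ j ∈ range N, u (r + j) + u (r + N) - u r := by
      have h2 : ∑ j ∈ range (N + 1), u (r + j) = ∑ j ∈ range N, u (r + j) + u (r + N) :=
        Finset.sum_range_succ _ _
      have h3 : ∑ j ∈ range (N + 1), u (r + j) = ∑ j ∈ range N, u (r + (j + 1)) + u (r + 0) :=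
        Finset.sum_range_succ' _ _
      have h4 : ∑ j ∈ range N, u (r + 1 + j) = ∑ j ∈ range N, u (r + (j + 1)) :=
        Finset.sum_congr rfl fun j _ => by rw [add_assoc, add_comm 1 j]
      rw [h4]
      rw [add_zero] at h3
      linarith
    rw [h1]
    have h5 := hu (r + N)
    have h6 := hu r
    rw [abs_le] at ih h5 h6 ⊢
    push_cast
    constructor <;> linarith [ih.1, ih.2, h5.1, h5.2, h6.1, h6.2]

theorem rs_J (th : ℝ) (lam : ℕ → ℝ) {N : ℕ} (hN : 1 ≤ N) (n : ℕ) (g : Ex) :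
    N * J th lam 1 N n g = ∑ r ∈ range N, jj lam g (n + 1 + r) - 2 * th * N * g.nm := by
  have h1 : (Ioc n (n + N)).filter (fun m => 1 ∣ m) = Ioc n (n + N) :=
    Finset.filter_true_of_mem fun m _ => one_dvd m
  have hN0 : (N : ℝ) ≠ 0 := by
    have : N ≠ 0 := by omega
    exact_mod_cast this
  unfold J ar
  rw [h1, rs_Ioc]
  show (N : ℝ) * ((∑ r ∈ range N, jj lam g (n + 1 + r)) * ((1 : ℕ) : ℝ) / N - 2 * th * g.nm) = _
  rw [Nat.cast_one]
  field_simp

theorem pf_RS (hRB : T_RB) : T_RS := by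
  intro th lam M N n g hth hlam hM hN
  have hB := (hRB th lam 1 N n hth hlam le_rfl hN).2.2.2.2.2.2 g
  set B : ℝ := 2 * g.nm + g.nm ^ 2 with hBd
  have hnm : 0 ≤ g.nm := Finset.sum_nonneg fun i _ => norm_nonneg _
  have hB0 : 0 ≤ B := by positivity
  have hM0 : (0 : ℝ) < M := by
    have : 0 < M := by omega
    exact_mod_cast this
  -- the sum over the pieces
  have hpiece : ∀ j ∈ range N, ∑ r ∈ range M, jj lam g (n + j + 1 + r) - 2 * th * M * g.nm ≤
      M * En th lam 1 M (n + j) := by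
    intro j _
    rw [← rs_J th lam hM (n + j) g]
    refine mul_le_mul_of_nonneg_left ?_ hM0.le
    exact le_ciSup (hRB th lam 1 M (n + j) hth hlam le_rfl hM).1 g
  have hsum := Finset.sum_le_sum hpiece
  rw [Finset.sum_sub_distrib, Finset.sum_const, card_range, nsmul_eq_mul, ← Finset.mul_sum,
    Finset.sum_comm] at hsum
  -- compare the inner sums
  have hcmp : ∀ r ∈ range M, ∑ j ∈ range N, jj lam g (n + 1 + j) - 2 * M * B ≤
      ∑ j ∈ range N, jj lam g (n + j + 1 + r) := by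
    intro r hr
    have h1 := rs_shift (fun t => jj lam g (n + 1 + t)) N B (fun t => (hB _).2) r
    have h2 : ∑ j ∈ range N, jj lam g (n + 1 + (r + j)) =
        ∑ j ∈ range N, jj lam g (n + j + 1 + r) :=
      Finset.sum_congr rfl fun j _ => by
        have : n + 1 + (r + j) = n + j + 1 + r := by omega
        rw [this]
    rw [h2] at h1
    have h3 := (abs_le.1 h1).2
    have h4 : (r : ℝ) ≤ M := by exact_mod_cast (Finset.mem_range.1 hr).le
    have h5 : 2 * (r : ℝ) * B ≤ 2 * M * B := by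
      refine mul_le_mul_of_nonneg_right ?_ hB0
      linarith
    linarith
  have hsum2 := Finset.sum_le_sum hcmp
  rw [Finset.sum_const, card_range, nsmul_eq_mul] at hsum2
  rw [rs_J th lam hN n g]
  -- divide by `M`
  have h6 : (M : ℝ) * (∑ r ∈ range N, jj lam g (n + 1 + r) - 2 * th * N * g.nm) ≤
      M * (∑ j ∈ range N, En th lam 1 M (n + j) + 2 * M * B) := by
    linarith
  exact le_of_mul_le_mul_left h6 hM0

end Pool.Agent.H14.G3
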